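import Mathlib

open Filter Topology MeasureTheory Polynomial Set

namespace Pool.Agent.Results.MP_e444d1_an.NoCompleteBernstein

noncomputable section

/-- `m` is completely monotone on `(0, ∞)`. -/
def CompletelyMonotone (m : ℝ → ℝ) : Prop :=
  ContDiffOn ℝ (⊤ : ℕ∞) m (Ioi 0) ∧ ∀ k : ℕ, ∀ t : ℝ, 0 < t → 0 ≤ (-1) ^ k * iteratedDeriv k m t

/-- `F` is a complete Bernstein function on `(0, ∞)`: `F x = a + b x + ∫ (1 - e^{-xt}) m(t) dt`
with `a, b ≥ 0` and a completely monotone Lévy density `m`. -/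
def IsCompleteBernstein (F : ℝ → ℝ) : Prop :=
  ∃ a b : ℝ, 0 ≤ a ∧ 0 ≤ b ∧ ∃ m : ℝ → ℝ, CompletelyMonotone m ∧
    IntegrableOn (fun t => min 1 t * m t) (Ioi 0) ∧
    ∀ x : ℝ, 0 < x → F x = a + b * x + ∫ t in Ioi (0 : ℝ), (1 - Real.exp (-(x * t))) * m t

lemma one_sub_exp_le {x t : ℝ} (hx : 0 ≤ x) (ht : 0 < t) :
    1 - Real.exp (-(x * t)) ≤ max 1 x * min 1 t := by
  have h1 : 1 - Real.exp (-(x * t)) ≤ 1 := by linarith [Real.exp_pos (-(x * t))]
  have h2 : 1 - Real.exp (-(x * t)) ≤ x * t := by linarith [Real.add_one_le_exp (-(x * t))]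
  rcases le_total 1 t with h | h
  · rw [min_eq_left h, mul_one]; exact h1.trans (le_max_left _ _)
  · rw [min_eq_right h]
    exact h2.trans (mul_le_mul_of_nonneg_right (le_max_right _ _) ht.le)

lemma one_sub_exp_nonneg {x t : ℝ} (hx : 0 ≤ x) (ht : 0 < t) :
    0 ≤ 1 - Real.exp (-(x * t)) := by
  have : Real.exp (-(x * t)) ≤ 1 := Real.exp_le_one_iff.2 (by nlinarith)
  linarith

variable {m : ℝ → ℝ}

lemma meas (hc : ContinuousOn m (Ioi 0)) {g : ℝ → ℝ} (hg : Continuous g) :
    AEStronglyMeasurable (fun t => g t * m t) (volume.restrict (Ioi 0)) :=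
  (hg.continuousOn.mul hc).aestronglyMeasurable measurableSet_Ioi

lemma integrable_of_bound (hc : ContinuousOn m (Ioi 0)) (hm : ∀ t, 0 < t → 0 ≤ m t)
    (hi : IntegrableOn (fun t => min 1 t * m t) (Ioi 0)) {g : ℝ → ℝ} (hg : Continuous g) (C : ℝ)
    (hgb : ∀ t, 0 < t → |g t| ≤ C * min 1 t) :
    IntegrableOn (fun t => g t * m t) (Ioi 0) := by
  refine Integrable.mono' (hi.const_mul C) (meas hc hg) ?_
  rw [ae_restrict_iff' measurableSet_Ioi]
  refine Eventually.of_forall fun t ht => ?_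
  rw [Real.norm_eq_abs, abs_mul, abs_of_nonneg (hm t ht)]
  calc |g t| * m t ≤ (C * min 1 t) * m t := mul_le_mul_of_nonneg_right (hgb t ht) (hm t ht)
    _ = C * (min 1 t * m t) := by ring

/-- For no `p > 1`, `-1 < N < D ≤ 0` does a complete Bernstein function take the values
`(p^n + N)/(p^n + D)` at all integers `n ≥ 1`. -/
theorem result : ∀ p N D : ℝ, 1 < p → -1 < N → N < D → D ≤ 0 →
    ¬ ∃ F : ℝ → ℝ, IsCompleteBernstein F ∧
      ∀ n : ℕ, 1 ≤ n → F n = (p ^ n + N) / (p ^ n + D) := by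
  rintro p N D hp hN hND hD ⟨F, ⟨a, b, ha, hb, m, ⟨hsm, hcm⟩, hi, hF⟩, hint⟩
  have hc : ContinuousOn m (Ioi 0) := hsm.continuousOn
  have hm : ∀ t, 0 < t → 0 ≤ m t := by
    intro t ht; simpa using hcm 0 t ht
  set q : ℝ := p⁻¹ with hq
  have hp0 : 0 < p := by linarith
  have hq0 : 0 < q := inv_pos.2 hp0
  have hq1 : q < 1 := inv_lt_one_of_one_lt₀ hp
  -- differences of F
  have hdiffF : ∀ n : ℕ, F ((n + 2 : ℕ) : ℝ) - F ((n + 1 : ℕ) : ℝ) =
      b + ∫ t in Ioi (0 : ℝ), (Real.exp (-t) ^ (n + 1) * (1 - Real.exp (-t))) * m t := by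
    intro n
    rw [hF _ (by positivity), hF _ (by positivity)]
    have i1 : IntegrableOn (fun t => (1 - Real.exp (-(((n + 2 : ℕ) : ℝ) * t))) * m t) (Ioi 0) := by
      refine integrable_of_bound hc hm hi (by fun_prop) (max 1 ((n + 2 : ℕ) : ℝ)) ?_
      intro t ht
      rw [abs_of_nonneg (one_sub_exp_nonneg (by positivity) ht)]
      exact one_sub_exp_le (by positivity) ht
    have i2 : IntegrableOn (fun t => (1 - Real.exp (-(((n + 1 : ℕ) : ℝ) * t))) * m t) (Ioi 0) := by
      refine integrable_of_bound hc hm hi (by fun_prop) (max 1 ((n + 1 : ℕ) : ℝ)) ?_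
      intro t ht
      rw [abs_of_nonneg (one_sub_exp_nonneg (by positivity) ht)]
      exact one_sub_exp_le (by positivity) ht
    have e : ∫ t in Ioi (0 : ℝ), (Real.exp (-t) ^ (n + 1) * (1 - Real.exp (-t))) * m t =
        (∫ t in Ioi (0 : ℝ), (1 - Real.exp (-(((n + 2 : ℕ) : ℝ) * t))) * m t) -
        ∫ t in Ioi (0 : ℝ), (1 - Real.exp (-(((n + 1 : ℕ) : ℝ) * t))) * m t := by
      rw [← integral_sub i1 i2]
      congr 1
      ext t
      have e1 : Real.exp (-(((n + 2 : ℕ) : ℝ) * t)) = Real.exp (-t) ^ (n + 2) := by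
        rw [← Real.exp_nat_mul]; congr 1; ring
      have e2 : Real.exp (-(((n + 1 : ℕ) : ℝ) * t)) = Real.exp (-t) ^ (n + 1) := by
        rw [← Real.exp_nat_mul]; congr 1; ring
      rw [e1, e2]
      ring
    rw [e]
    push_cast
    ring
  -- the linear functional on polynomials
  set L : ℝ[X] → ℝ := fun P => ∑ n ∈ Finset.range (P.natDegree + 1),
    P.coeff n * (F ((n + 2 : ℕ) : ℝ) - F ((n + 1 : ℕ) : ℝ)) with hL
  have hE : ∀ t : ℝ, 0 < t → 0 < Real.exp (-t) ∧ Real.exp (-t) < 1 := fun t ht =>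
    ⟨Real.exp_pos _, by have := Real.exp_lt_exp.2 (show -t < 0 by linarith); rwa [Real.exp_zero] at this⟩
  have hintn : ∀ n : ℕ, IntegrableOn
      (fun t => (Real.exp (-t) ^ (n + 1) * (1 - Real.exp (-t))) * m t) (Ioi 0) := by
    intro n
    refine integrable_of_bound hc hm hi (by fun_prop) 1 ?_
    intro t ht
    obtain ⟨h1, h2⟩ := hE t ht
    have h3 := one_sub_exp_le (x := 1) zero_le_one ht
    rw [one_mul, max_self] at h3
    rw [abs_of_nonneg (mul_nonneg (by positivity) (by linarith))]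
    calc Real.exp (-t) ^ (n + 1) * (1 - Real.exp (-t)) ≤ 1 * (1 - Real.exp (-t)) := by
          apply mul_le_mul_of_nonneg_right (pow_le_one₀ h1.le h2.le) (by linarith)
      _ ≤ 1 * min 1 t := by linarith
  have side1 : ∀ P : ℝ[X], L P = b * P.eval 1 + ∫ t in Ioi (0 : ℝ),
      (Real.exp (-t) * P.eval (Real.exp (-t)) * (1 - Real.exp (-t))) * m t := by
    intro P
    simp only [hL, hdiffF]
    have e : ∀ t : ℝ, (Real.exp (-t) * P.eval (Real.exp (-t)) * (1 - Real.exp (-t))) * m t =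
        ∑ n ∈ Finset.range (P.natDegree + 1),
          P.coeff n * ((Real.exp (-t) ^ (n + 1) * (1 - Real.exp (-t))) * m t) := by
      intro t
      rw [Polynomial.eval_eq_sum_range, Finset.mul_sum, Finset.sum_mul, Finset.sum_mul]
      apply Finset.sum_congr rfl
      intro n _
      ring
    simp only [e]
    rw [integral_finsetSum _ fun n _ => (hintn n).const_mul _]
    simp only [integral_const_mul]
    rw [Polynomial.eval_eq_sum_range, Finset.mul_sum, ← Finset.sum_add_distrib]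
    apply Finset.sum_congr rfl
    intro n _
    rw [one_pow]; ring
  -- series for the prescribed values
  have hser : ∀ n : ℕ, 1 ≤ n → HasSum (fun k : ℕ => (D - N) * (-D) ^ k * (q ^ (k + 1)) ^ n)
      (1 - F n) := by
    intro n hn
    have hqn : q ^ n < 1 := pow_lt_one₀ hq0.le hq1 (by omega)
    have hqn0 : 0 < q ^ n := by positivity
    have hr0 : 0 ≤ -D * q ^ n := mul_nonneg (by linarith) hqn0.le
    have hr1 : -D * q ^ n < 1 := by nlinarith
    have h1 := (hasSum_geometric_of_lt_one hr0 hr1).mul_left ((D - N) * q ^ n)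
    have e : (D - N) * q ^ n * (1 - -D * q ^ n)⁻¹ = 1 - F n := by
      rw [hint n hn]
      have hpn : q ^ n = (p ^ n)⁻¹ := by rw [hq, inv_pow]
      have hpn0 : 0 < p ^ n := by positivity
      have hpD : 0 < p ^ n + D := by
        have : 1 < p ^ n := one_lt_pow₀ hp (by omega)
        linarith
      rw [hpn]
      have h2 : (1 - -D * (p ^ n)⁻¹) = (p ^ n + D) / p ^ n := by field_simp; ring
      rw [h2]
      field_simp
      ring
    rw [e] at h1
    have e2 : (fun k : ℕ => (D - N) * (-D) ^ k * (q ^ (k + 1)) ^ n) =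
        fun k => (D - N) * q ^ n * (-D * q ^ n) ^ k := by
      ext k
      rw [mul_pow, ← pow_mul, ← pow_mul, show (k + 1) * n = n + n * k by ring, pow_add]
      ring
    rw [e2]
    exact h1
  set c : ℕ → ℝ := fun k => (D - N) * (-D) ^ k * (1 - q ^ (k + 1)) with hcdef
  have hc0 : ∀ k, 0 ≤ c k := by
    intro k
    have : q ^ (k + 1) ≤ 1 := pow_le_one₀ hq0.le hq1.le
    have h2 : 0 ≤ (-D) ^ k := pow_nonneg (by linarith) k
    simp only [hcdef]
    exact mul_nonneg (mul_nonneg (by linarith) h2) (by linarith)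
  have hser2 : ∀ n : ℕ, HasSum (fun k : ℕ => c k * (q ^ (k + 1)) ^ (n + 1))
      (F ((n + 2 : ℕ) : ℝ) - F ((n + 1 : ℕ) : ℝ)) := by
    intro n
    have h := (hser (n + 1) (by omega)).sub (hser (n + 2) (by omega))
    have e : 1 - F ((n + 1 : ℕ) : ℝ) - (1 - F ((n + 2 : ℕ) : ℝ)) =
      F ((n + 2 : ℕ) : ℝ) - F ((n + 1 : ℕ) : ℝ) := by ring
    rw [e] at h
    have e2 : (fun k : ℕ => c k * (q ^ (k + 1)) ^ (n + 1)) = fun k =>
        (D - N) * (-D) ^ k * (q ^ (k + 1)) ^ (n + 1) -
          (D - N) * (-D) ^ k * (q ^ (k + 1)) ^ (n + 2) := by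
      ext k
      simp only [hcdef]
      ring
    rw [e2]
    exact h
  have side2 : ∀ P : ℝ[X], HasSum (fun k : ℕ => c k * (q ^ (k + 1) * P.eval (q ^ (k + 1)))) (L P) := by
    intro P
    have h := hasSum_sum (f := fun n (k : ℕ) => P.coeff n * (c k * (q ^ (k + 1)) ^ (n + 1)))
      (a := fun n => P.coeff n * (F ((n + 2 : ℕ) : ℝ) - F ((n + 1 : ℕ) : ℝ)))
      (s := Finset.range (P.natDegree + 1)) fun n _ => (hser2 n).mul_left (P.coeff n)
    have e2 : (fun k : ℕ => c k * (q ^ (k + 1) * P.eval (q ^ (k + 1)))) = fun k =>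
        ∑ n ∈ Finset.range (P.natDegree + 1), P.coeff n * (c k * (q ^ (k + 1)) ^ (n + 1)) := by
      ext k
      rw [Polynomial.eval_eq_sum_range, Finset.mul_sum, Finset.mul_sum]
      apply Finset.sum_congr rfl
      intro n _
      ring
    rw [e2]
    exact h
  -- test polynomials
  set P : ℕ → ℝ[X] := fun k => (1 - (X - C q) ^ 2) ^ k with hP
  have hPe : ∀ k s, (P k).eval s = (1 - (s - q) ^ 2) ^ k := by
    intro k s; simp [hP]
  have hP01 : ∀ s : ℝ, 0 ≤ s → s ≤ 1 → 0 ≤ 1 - (s - q) ^ 2 ∧ 1 - (s - q) ^ 2 ≤ 1 := by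
    intro s h0 h1
    constructor <;> nlinarith
  have lower : ∀ k, (D - N) * (1 - q) * q ≤ L (P k) := by
    intro k
    have h := side2 (P k)
    have hle := h.summable.le_tsum 0 (fun j _ => ?_)
    · rw [h.tsum_eq] at hle
      refine le_trans (le_of_eq ?_) hle
      simp [hcdef, hPe]
    · have h1 : 0 ≤ q ^ (j + 1) := by positivity
      have h2 : q ^ (j + 1) ≤ 1 := pow_le_one₀ hq0.le hq1.le
      have h3 := (hP01 _ h1 h2).1
      rw [hPe]
      exact mul_nonneg (hc0 j) (mul_nonneg h1 (pow_nonneg h3 k))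
  have hlim : Tendsto (fun k => L (P k)) atTop (𝓝 0) := by
    have e : ∀ k, L (P k) = b * (1 - (1 - q) ^ 2) ^ k + ∫ t in Ioi (0 : ℝ),
      (Real.exp (-t) * (1 - (Real.exp (-t) - q) ^ 2) ^ k * (1 - Real.exp (-t))) * m t := by
      intro k
      rw [side1]
      simp only [hPe]
    simp only [e]
    have hgoal : Tendsto (fun k : ℕ => b * (1 - (1 - q) ^ 2) ^ k + ∫ t in Ioi (0 : ℝ),
      (Real.exp (-t) * (1 - (Real.exp (-t) - q) ^ 2) ^ k * (1 - Real.exp (-t))) * m t) atTop
      (𝓝 (b * 0 + ∫ t in Ioi (0 : ℝ), (0 : ℝ))) := ?_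
    · simpa using hgoal
    apply Tendsto.add
    · apply Tendsto.const_mul
      apply tendsto_pow_atTop_nhds_zero_of_lt_one
      · exact (hP01 1 zero_le_one le_rfl).1
      · have : 0 < (1 - q) ^ 2 := by
          have : 0 < 1 - q := by linarith
          positivity
        linarith
    · apply tendsto_integral_of_dominated_convergence (fun t => min 1 t * m t)
      · intro k
        exact meas hc (by fun_prop)
      · exact hi
      · intro k
        rw [ae_restrict_iff' measurableSet_Ioi]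
        refine Eventually.of_forall fun t ht => ?_
        have ht' : 0 < t := ht
        obtain ⟨h1, h2⟩ := hE t ht'
        have h3 := one_sub_exp_le (x := 1) zero_le_one ht'
        rw [one_mul, max_self, one_mul] at h3
        have h4 := hP01 _ h1.le h2.le
        have h5 : 0 ≤ (1 - (Real.exp (-t) - q) ^ 2) ^ k := pow_nonneg h4.1 k
        have h6 : (1 - (Real.exp (-t) - q) ^ 2) ^ k ≤ 1 := pow_le_one₀ h4.1 h4.2
        rw [Real.norm_eq_abs, abs_mul, abs_of_nonneg (hm t ht'), abs_of_nonneg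
          (mul_nonneg (mul_nonneg h1.le h5) (by linarith))]
        apply mul_le_mul_of_nonneg_right _ (hm t ht')
        calc Real.exp (-t) * (1 - (Real.exp (-t) - q) ^ 2) ^ k * (1 - Real.exp (-t))
            ≤ 1 * 1 * (1 - Real.exp (-t)) := by
              apply mul_le_mul_of_nonneg_right _ (by linarith)
              exact mul_le_mul h2.le h6 h5 zero_le_one
          _ ≤ min 1 t := by linarith
      · have hne : ∀ᵐ t ∂(volume.restrict (Ioi (0 : ℝ))), t ≠ -Real.log q := by
          apply ae_restrict_of_ae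
          exact Measure.ae_ne volume (-Real.log q)
        rw [ae_restrict_iff' measurableSet_Ioi] at *
        filter_upwards [hne] with t ht1 ht
        have ht' : 0 < t := ht
        obtain ⟨h1, h2⟩ := hE t ht'
        have hneq : Real.exp (-t) - q ≠ 0 := by
          intro hcon
          apply ht1 ht
          have : Real.exp (-t) = q := by linarith
          rw [← this, Real.log_exp, neg_neg]
        have h4 := hP01 _ h1.le h2.le
        have h5 : 1 - (Real.exp (-t) - q) ^ 2 < 1 := by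
          have : 0 < (Real.exp (-t) - q) ^ 2 := by positivity
          linarith
        have h6 := tendsto_pow_atTop_nhds_zero_of_lt_one h4.1 h5
        have h7 := ((h6.const_mul (Real.exp (-t))).mul_const (1 - Real.exp (-t))).mul_const (m t)
        simpa using h7
  have hpos : 0 < (D - N) * (1 - q) * q :=
    mul_pos (mul_pos (by linarith) (by linarith)) hq0
  have := ge_of_tendsto' hlim lower
  linarith

end

end Pool.Agent.Results.MP_e444d1_an.NoCompleteBernstein
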